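import Pool.Agent.MP_8be872_ag.H68.CharB
import Pool.Agent.MP_8be872_ag.H63.SpecD

/-! The moving part of the character of a cell. -/

namespace Pool.Agent.MP_8be872_ag.H68

open Finset H38 H56 H63
open scoped Classical

variable {Q : Quiv} {w v D : Fin Q.n → ℕ}
variable {σ : Bas Q v ≃ Bas Q v} {d : Bas Q v → ℕ} {lab : Bas Q D → Bas Q v × ℕ}

section Lin

variable {M M' : Type} [AddCommGroup M] [AddCommGroup M'] {e : Fin Q.n → ℕ → ℤ}

lemma mv_add (f g : G → ℤ → M) :
    mv w v e (fun x m => f x m + g x m) = mv w v e f + mv w v e g := by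
  simp only [mv, sum_add_distrib]
  abel

lemma mv_sub (f g : G → ℤ → M) :
    mv w v e (fun x m => f x m - g x m) = mv w v e f - mv w v e g := by
  simp only [mv, sum_sub_distrib]
  abel

lemma mv_map (ψ : M →+ M') (f : G → ℤ → M) :
    mv w v e (fun x m => ψ (f x m)) = ψ (mv w v e f) := by
  simp only [mv, map_sub, map_add, map_sum]

lemma mv_smul (f : G → ℤ → ℤ) (y : M) : mv w v e (fun x m => f x m • y) = mv w v e f • y := by
  simp only [mv, sub_smul, add_smul, sum_smul]

lemma mv_smul' (c : ℤ) (f : G → ℤ → M) : mv w v e (fun x m => c • f x m) = c • mv w v e f := by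
  simp only [mv, smul_sub, smul_add, smul_sum]

lemma antisym {N : Type} [Fintype N] (A : N → N → Prop) (hA : ∀ p q, A p q ↔ A q p) (Z : N → M) :
    ∑ p, ∑ q, (if A p q then Z q - Z p else 0) = 0 := by
  have e : ∀ p q, (if A p q then Z q - Z p else 0) =
      (if A p q then Z q else 0) - if A q p then Z p else 0 := fun p q => by
    by_cases h : A p q
    · rw [if_pos h, if_pos h, if_pos ((hA p q).1 h)]
    · rw [if_neg h, if_neg h, if_neg fun h' => h ((hA p q).2 h'), sub_zero]
  simp only [e, sum_sub_distrib]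
  rw [sum_comm, sub_self]

lemma ite_sub3 (A B C : Prop) {_ : Decidable A} {_ : Decidable B} {_ : Decidable C} (y : M)
    (h : A ↔ B ∨ C) (h' : ¬ (B ∧ C)) :
    (if A then y else 0) - (if B then y else 0) = if C then y else 0 := by
  by_cases hB : B <;> by_cases hC : C <;> simp_all

lemma orbit_dim (hQ : ∀ x, Q.hd x ≠ Q.tl x) {u : Fin Q.n → ℤ} (hu : InOrbit Q w u) :
    2 * ∑ i, u i * w i = form Q u u := by
  unfold InOrbit at hu
  induction hu with
  | refl => simp [form]
  | @tail a b _ h ih =>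
    obtain ⟨i, rfl⟩ := h
    have e1 : pairing Q w a (Pi.single i 1) = w i - form Q (Pi.single i 1) a := by
      simp [pairing, Pi.single_apply]
    have e2 : ∀ c : ℤ, ∑ j, (a + Pi.single i c : Fin Q.n → ℤ) j * w j =
        ∑ j, a j * w j + c * w i := fun c => by
      simp [add_mul, sum_add_distrib, Pi.single_apply]
    rw [e2, single_eq i (pairing Q w a _), form_add, form_smul, form_comm a, form_add, form_smul,
      form_comm (Pi.single i 1) (a + _), form_add, form_smul, form_self i hQ,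
      form_comm a (Pi.single i 1), e1]
    linear_combination ih

lemma mv_one (hQ : ∀ x, Q.hd x ≠ Q.tl x) (hu : InOrbit Q w fun i => v i) :
    mv w v e (fun _ _ => (1 : ℤ)) = 0 := by
  have h := orbit_dim hQ hu
  have e1 : ∑ x, ((v (Q.hd x) : ℤ) * v (Q.tl x) + v (Q.tl x) * v (Q.hd x)) =
      2 * ∑ x, (v (Q.tl x) : ℤ) * v (Q.hd x) := by
    rw [mul_sum]
    exact sum_congr rfl fun _ _ => by ring
  have e2 : ∑ i, (w i : ℤ) * v i = ∑ i, (v i : ℤ) * w i := sum_congr rfl fun _ _ => mul_comm _ _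
  simp only [form, e1] at h
  simp only [mv, sum_const, card_range, nsmul_eq_mul, mul_one, e2]
  linarith

lemma mv_deg {n : Fin Q.n → ℤ} (hn : ∀ i, ∑ a ∈ range (v i), e i a = n i) :
    mv w v e (fun _ m => m) = ∑ i, aExp Q w v i * n i := by
  have e1 : ∀ (f : Fin Q.ne → Fin Q.n) (c : Fin Q.ne → ℤ),
      ∑ i, (∑ x with f x = i, c x) * n i = ∑ x, c x * n (f x) := fun f c => by
    rw [← sum_fiberwise univ f]
    refine sum_congr rfl fun i _ => ?_
    rw [sum_mul]
    exact sum_congr rfl fun x hx => by rw [(mem_filter.1 hx).2]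
  simp only [mv, aExp, sum_sub_distrib, sum_const, card_range, nsmul_eq_mul, ← mul_sum, hn, add_mul,
    sub_mul, sum_add_distrib, e1, sub_self, mul_zero, sub_zero]

end Lin

lemma wt_eq (x : Nb Q w v D → G) (k : Kd Q) (p q : Nb Q w v D) :
    wt x (0 : Empty → G) (gg k p q) = x q - x p - cs (k.elim id id) + sft k • qq := by
  rcases k with (ε | _ | _) | (ε | _ | _) <;> simp [wt, ofM, gg, cs, sft] <;> abel

lemma lvk_eq (k : Kd Q) (p q : Nb Q w v D) : lvk d lab k p q = lv d lab q - lv d lab p + sft k := by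
  rcases k with (ε | _ | _) | (ε | _ | _) <;> rfl

lemma xs_wt (c : G) (s : ℤ) (p q : Nb Q w v D) : xs σ d lab q - xs σ d lab p - c + s • qq =
    XX σ (pa lab q) - XX σ (pa lab p) - c + (lv d lab q - lv d lab p + s) • qq := by
  rw [xs_eq, xs_eq]
  module

/-- The exponent of the symmetrizing monomial. -/
noncomputable def expo (g : G) (m : ℤ) : G := -(m • (g + tau)) - (m * (m - 1) / 2) • qq

lemma kappa (hQ : ∀ x, Q.hd x ≠ Q.tl x) (hu : InOrbit Q w fun i => v i) {D : Fin Q.n →₀ ℕ}
    {lab : Bas Q D → Bas Q v × ℕ} {e : Fin Q.n → ℕ → ℕ} {Λ : G →+ G} {κ : G} (hl : IsLab d lab)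
    (hs : IsSort D d σ e) (hΛ : LamOK (w := w) σ d lab Λ)
    (hκ : IsKap (w := w) (v := v) (D := D) κ) : Λ κ = mv w v (fun i a => e i a) expo := by
  have f0 : ∀ r, (∀ n, r ≠ 3 * n + 4) → Λ (gen r) = gen r := fun r hr =>
    hΛ.fix _ fun i a => (co_gen _ r).trans (if_neg (hr _))
  have f1 : Λ qq = qq := f0 0 (by omega)
  have f2 : Λ tau = tau := f0 1 (by omega)
  have f3 : ∀ x, Λ (tE x) = tE x := fun x => f0 _ (by omega)
  have f4 : ∀ τ : Arr Q ⊕ Bool, Λ (cs τ) = cs τ := by
    rintro (⟨_ | x, _ | _⟩ | _ | _) <;> simp [cs, arrWt, hb, f2, f3]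
  let h : G → ℤ → G := fun g l => (2 : ℤ) • (g + l • qq)
  let L : G → ℤ → G := fun g c => (2 * (c + 1)) • g - (c * (c + 1)) • qq
  have h0 : ∀ g, L g 0 = h g 0 := fun g => by simp [L, h]
  have hL : ∀ g c, L g c = L g (c - 1) + h g (-c) := fun g c => by
    simp only [L, h]
    module
  have e1 : ∀ k : Kd Q, (Λ + Λ) (∑ p : Nb Q w v D, ∑ q,
      msk rad (fun k p q => wt bw (0 : Empty → G) (gg k p q)) k p q) =
      ent σ d lab h (shape (w := w) rad k) (k.elim id id) (sft k) := fun k => by
    rw [map_sum, ent]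
    refine sum_congr rfl fun p _ => ?_
    rw [map_sum]
    refine sum_congr rfl fun q _ => ?_
    by_cases H : shape rad k p q
    · simp only [msk, if_pos H, wt_eq, AddMonoidHom.add_apply, map_add, map_sub, map_zsmul, hΛ.bas,
        f1, f4, h, ← xs_wt]
      module
    · simp [msk, H]
  have e2 : ent σ d lab h (shape (w := w) rad ka) (.inr true) 1 -
      ent σ d lab h (shape (w := w) rad kc) (.inr true) 0 = -al w D σ d L (.inr true) := by
    have k1 : ent σ d lab h (fun p q : Nb Q w v D => arrow (.inr true) p q ∧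
        (blk q = 0 → blk p = 0)) (.inr true) 0 -
        ent σ d lab h (shape (w := w) rad kc) (.inr true) 0 = 0 := by
      rw [← antisym (fun p q : Nb Q w v D => vx p = vx q ∧ blk p < 2 ∧ blk p = blk q)
        (fun p q => by rw [eq_comm (a := vx p)]; omega)
        fun p => (2 : ℤ) • (XX σ (pa lab p) + lv d lab p • qq), ent, ent, ← sum_sub_distrib]
      refine sum_congr rfl fun p _ => ?_
      rw [← sum_sub_distrib]
      refine sum_congr rfl fun q _ => ?_
      have k2 : h (XX σ (pa lab q) - XX σ (pa lab p) - cs (Q := Q) (.inr true))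
          (lv d lab q - lv d lab p + 0) = (2 : ℤ) • (XX σ (pa lab q) + lv d lab q • qq) -
          (2 : ℤ) • (XX σ (pa lab p) + lv d lab p • qq) := by
        simp only [h, cs]
        module
      rw [k2]
      have k3 : shape rad kc p q ↔ vx p = vx q ∧ blk p < 2 ∧ blk q < 2 ∧ blk p < blk q := by
        simp [shape, arrow, rad, and_assoc]
      have k4 : arrow (.inr true) p q ↔ vx p = vx q ∧ blk p < 2 ∧ blk q < 2 := Iff.rfl
      refine ite_sub3 _ _ _ _ ?_ ?_
      · rw [k3, k4]
        by_cases a4 : vx p = vx q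
        · simp only [a4, true_and]
          omega
        · simp [a4]
      · rw [k3]
        omega
    rw [← pair1 hl h0 hL, sub_eq_zero.1 k1, neg_sub]
    rfl
  have e3 := tot_eq (σ := σ) hl h0 hL (shape (w := w) rad) rad fun _ _ _ _ => Iff.rfl
  rw [e2, ← sub_eq_add_neg, al_mv hs.vert hs.val] at e3
  have e4 : (fun (g : G) (m : ℤ) => L (-g) m + L (-(-hb - g)) (-m)) =
      fun g m => (4 : ℤ) • expo g m + (1 : ℤ) • ((2 : ℤ) • hb) - m • ((2 : ℤ) • qq) := by
    funext g m
    have := Int.two_mul_ediv_two_of_even (Int.even_mul_pred_self m)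
    simp only [L, expo, hb]
    generalize m * (m - 1) / 2 = t at this
    match_scalars
    · ring
    · linear_combination 2 * this
    · ring
  have e5 : ∀ i, ∑ a ∈ range (v i), (e i a : ℤ) = D i := fun i => by
    have := (mem_piAntidiag.1 (Fintype.mem_piFinset.1 (mem_filter.1 hs.mem).1 i)).1
    exact_mod_cast this
  rw [e4, mv_sub, mv_add, mv_smul', mv_smul, mv_smul, mv_one hQ hu, mv_deg e5] at e3
  have e6 : (Λ + Λ) (2 • κ) = ∑ τ, ent σ d lab h (shape (w := w) rad (.inl τ)) τ
      (sft (Q := Q) (.inl τ)) - ∑ τ, ent σ d lab h (shape (w := w) rad (.inr τ)) τ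
      (sft (Q := Q) (.inr τ)) + (Λ + Λ) ((∑ i, aExp Q w v i * D i) • qq) := by
    rw [hκ, map_add, Fintype.sum_sum_type, map_add, map_sum, map_sum, sub_eq_add_neg,
      ← sum_neg_distrib]
    congr 2
    · refine sum_congr rfl fun τ _ => Eq.trans (congrArg _ ?_) (e1 (.inl τ))
      simp only [Sum.elim_inl, one_smul]
    · refine sum_congr rfl fun τ _ =>
        Eq.trans ?_ ((map_neg _ _).trans (congrArg Neg.neg (e1 (.inr τ))))
      simp only [Sum.elim_inr, neg_smul, one_smul, sum_neg_distrib]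
  rw [e3] at e6
  simp only [AddMonoidHom.add_apply, map_nsmul, map_zsmul, f1] at e6
  refine smul_right_injective G (show (4 : ℤ) ≠ 0 by norm_num) ?_
  linear_combination (norm := module) e6

section Val

/-- A nonzero element as a unit. -/
noncomputable def uu (x : K) : Additive Kˣ := if h : x = 0 then 0 else .ofMul (Units.mk0 x h)

/-- The underlying element. -/
noncomputable def val (x : Additive Kˣ) : K := (x.toMul : Kˣ)

lemma val_uu {x : K} (h : x ≠ 0) : val (uu x) = x := by simp [val, uu, h]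

lemma val_zero : val 0 = 1 := rfl

lemma val_add (x y : Additive Kˣ) : val (x + y) = val x * val y := by simp [val]

lemma val_neg (x : Additive Kˣ) : val (-x) = (val x)⁻¹ := by simp [val]

lemma val_sub (x y : Additive Kˣ) : val (x - y) = val x * (val y)⁻¹ := by
  rw [sub_eq_add_neg, val_add, val_neg]

lemma val_sum {I : Type} (s : Finset I) (f : I → Additive Kˣ) :
    val (∑ i ∈ s, f i) = ∏ i ∈ s, val (f i) := by simp [val]

/-- Monomials as units. -/
noncomputable def monU : G →+ Additive Kˣ :=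
  AddMonoidHom.mk' (fun g => .ofMul (Units.mk0 (mon g) (mon_ne g))) fun g g' =>
    Additive.toMul.injective (Units.ext (mon_add g g'))

lemma val_monU (g : G) : val (monU g) = mon g := rfl

/-- The factor of a generator. -/
noncomputable def fa (g : G) (l : ℤ) : Additive Kˣ :=
  if l = 0 then 0 else uu (1 - mon (g + l • qq))

lemma val_fa {g : G} (hg : co 0 g = 0) (l : ℤ) :
    val (fa g l) = if l = 0 then 1 else 1 - mon (g + l • qq) := by
  unfold fa
  split_ifs with h
  · rfl
  · refine val_uu (one_sub_mon_ne fun H => h ?_)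
    simpa [hg, qq, co_gen] using congrArg (co 0) H

lemma val_lin {g : G} (hg : co 0 g = 0) (m : ℤ) :
    val (lin (fa (-g)) m) = (lamM g m)⁻¹ := by
  have e : ∀ l : ℤ, l ≠ 0 → val (fa (-g) (-l)) = 1 - mon (-(g + l • qq)) := fun l hl => by
    rw [val_fa (by simp [hg]), if_neg (neg_ne_zero.2 hl), neg_smul, neg_add]
  rw [lin, val_sub, val_sum, val_sum, lamM, mul_inv, inv_inv,
    prod_congr rfl fun l hl => e l (by have := mem_Icc.1 hl; omega),
    prod_congr rfl fun l hl => e l (mem_Ioo.1 hl).2.ne]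

lemma val_mv {e : Fin Q.n → ℕ → ℤ} {P : G → ℤ → Additive Kˣ}
    (h : ∀ g m, co 0 g = 0 → val (P g m) = pairM g m) : val (mv w v e P) = moving Q w v e := by
  simp only [mv, moving, val_sub, val_add, val_sum, ← prod_inv_distrib]
  congr 1
  · congr 1
    · refine prod_congr rfl fun _ _ => prod_congr rfl fun _ _ => prod_congr rfl fun _ _ => h _ _ ?_
      simp [tE, tau, xV, co_gen]
    · refine prod_congr rfl fun _ _ => prod_congr rfl fun _ _ => prod_congr rfl fun _ _ => h _ _ ?_
      simp [uF, tau, xV, co_gen]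
  · refine prod_congr rfl fun _ _ => prod_congr rfl fun _ _ => prod_congr rfl fun _ _ =>
      congrArg _ (h _ _ ?_)
    simp [xV, co_gen]

lemma co_base (τ : Arr Q ⊕ Bool) (a b : Bas Q v ⊕ Bas Q w) :
    co 0 (XX σ b - XX σ a - cs τ) = 0 := by
  have h1 : ∀ a : Bas Q v ⊕ Bas Q w, co 0 (XX σ a) = 0 := by
    rintro (a | a) <;> simp [XX, basWt, xV, uF, co_gen]
  have h2 : co 0 (cs τ) = 0 := by
    rcases τ with ⟨_ | x, _ | _⟩ | _ | _ <;> simp [cs, arrWt, hb, tau, tE, co_gen]
  simp [h1, h2]

lemma val_flg : val (-flg w D σ d fa) = flagK σ d := by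
  rw [flg, al_gauge, val_neg, flagK]
  simp only [val_sum, ← prod_inv_distrib]
  refine prod_congr rfl fun a _ => prod_congr rfl fun b _ => ?_
  have e : radF (.inr (.inl a) : Nb Q w v D) (.inr (.inl b)) ↔ (b.2 : ℕ) < a.2 := by
    simp [radF, blk]
  by_cases h1 : a.1 = b.1
  · by_cases h2 : (b.2 : ℕ) < a.2
    · rw [if_pos h1, if_pos (e.2 h2), if_neg fun H => by omega, val_zero, inv_one]
    · rw [if_pos h1, if_neg fun H => h2 (e.1 H), val_fa (co_base _ _ _)]
      by_cases h3 : d a = d b
      · rw [if_pos (by simp [dd, h3]), if_neg fun H => H.2.2 h3, inv_one]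
      · have h4 : (a.2 : ℕ) < b.2 := by
          refine lt_of_le_of_ne (not_lt.1 h2) fun H => h3 (congrArg d ?_)
          obtain ⟨i, a⟩ := a
          obtain ⟨j, b⟩ := b
          obtain rfl : i = j := h1
          exact congrArg _ (Fin.ext H)
        rw [if_neg (by simp only [dd, Sum.elim_inl]; omega), if_pos ⟨h1, h4, h3⟩]
        congr 3
        simp only [XX, basWt, cs, dd, Sum.map_inl, Sum.elim_inl]
        module
  · rw [if_neg h1, if_neg fun H => h1 H.1, val_zero, inv_one]

lemma prod_gg (F : Ix Q w v D Empty ⊕ Ix Q w v D Empty → K) :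
    ∏ g, F g = (∏ τ, ∏ p, ∏ q, F (gg (.inl τ) p q)) * ∏ τ, ∏ p, ∏ q, F (gg (.inr τ) p q) := by
  rw [Fintype.prod_sum_type, Fintype.prod_sum_type, Fintype.prod_sum_type]
  simp only [Fintype.prod_prod_type, Fintype.prod_empty, mul_one]
  rfl

lemma val_ent (k : Kd Q) :
    val (ent σ d lab fa (shS (w := w) lab k) (k.elim id id) (sft k)) =
      ∏ p : Nb Q w v D, ∏ q, if lvNe d lab (gg (J := Empty) k p q) then
        1 - mon (wt (xs σ d lab) (0 : Empty → G) (gg k p q)) else 1 := by
  simp only [ent, val_sum]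
  refine prod_congr rfl fun p _ => prod_congr rfl fun q _ => ?_
  have e : lvNe d lab (gg (J := Empty) k p q) ↔
      shS lab k p q ∧ lv d lab q - lv d lab p + sft k ≠ 0 := by
    rw [← lvk_eq]
    cases k <;> exact Iff.rfl
  by_cases h1 : shS lab k p q
  · rw [if_pos h1, val_fa (co_base _ _ _), wt_eq, xs_wt]
    by_cases h2 : lv d lab q - lv d lab p + sft k = 0
    · rw [if_pos h2, if_neg fun H => (e.1 H).2 h2]
    · rw [if_neg h2, if_pos (e.2 ⟨h1, h2⟩)]
  · rw [if_neg h1, if_neg fun H => h1 (e.1 H).1, val_zero]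

lemma movK_false : movK (w := w) σ d lab false =
    val (∑ τ, ent σ d lab fa (shS (w := w) lab (.inl τ)) τ (sft (Q := Q) (.inl τ))) := by
  rw [val_sum]
  refine Eq.trans ?_ (prod_congr rfl fun τ _ => (val_ent (.inl τ)).symm)
  rw [movK, prod_filter, prod_gg]
  simp [gg]

lemma movK_true : movK (w := w) σ d lab true =
    val (∑ τ, ent σ d lab fa (shS (w := w) lab (.inr τ)) τ (sft (Q := Q) (.inr τ))) := by
  rw [val_sum]
  refine Eq.trans ?_ (prod_congr rfl fun τ _ => (val_ent (.inr τ)).symm)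
  rw [movK, prod_filter, prod_gg]
  simp [gg]

end Val

theorem charId : CharIdStmt := by
  intro Q hQ w v hu D d σ e lab Λ κ hl hs hΛ hκ
  have h0 : ∀ g, lin (fa g) 0 = fa g 0 := fun g => (lin_zero _).trans (if_pos rfl).symm
  have hL : ∀ g c, lin (fa g) c = lin (fa g) (c - 1) + fa g (-c) := fun g =>
    lin_rec (if_pos rfl)
  have e1 := tot_eq (σ := σ) (L := fun g => lin (fa g)) hl h0 hL (shS (w := w) lab) radF
    fun k p q hk => and_iff_left fun H => absurd H hk
  rw [pair2 (L := fun g => lin (fa g)) hl h0 hL, add_sub_left_comm, al_mv hs.vert hs.val] at e1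
  have e2 := val_mv (w := w) (v := v) (e := fun i a => e i a)
    (P := fun g m => monU (expo g m) - (lin (fa (-g)) m + lin (fa (-(-hb - g))) (-m)))
    fun g m hg => by
      rw [val_sub, val_add, val_lin hg, val_lin (by simp [hg, hb, tau, co_gen]), val_monU, mul_inv,
        inv_inv, inv_inv, mul_comm]
      rfl
  rw [mv_sub, mv_map, ← kappa hQ hu hl hs hΛ hκ] at e2
  rw [movK_true, movK_false, ← e2, ← val_flg (w := w) (D := D), ← val_monU, ← val_add, ← val_add,
    ← val_add, eq_add_of_sub_eq e1]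
  congr 1
  abel

end Pool.Agent.MP_8be872_ag.H68
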