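import Pool.Agent.MP_8be872_ag.H63.SpecC

/-! Virtual characters of the slice: cancellation of redundant generators. -/

namespace Pool.Agent.MP_8be872_ag.H68

open Finset H38 H56 H63
open scoped Classical

variable {M : Type} [AddCommGroup M]

section Arith

/-- What remains of a pair of kinds. -/
def tel (h : ℤ → M) (m n : ℕ) : M :=
  ∑ k ∈ range (m + 1), h (n - m + k) - ∑ j ∈ range n, h (n - j)

lemma tel_eq {h F : ℤ → M} (h0 : F 0 = h 0) (hF : ∀ c, F c = F (c - 1) + h (-c)) (m n : ℕ) :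
    tel h m n = F (m - n) := by
  induction m with
  | zero =>
    induction n with
    | zero => simp [tel, h0]
    | succ n ih =>
      have e1 := hF (-(n : ℤ))
      have e2 : ∑ j ∈ range n, h (((n + 1 : ℕ) : ℤ) - ((j + 1 : ℕ) : ℤ)) =
          ∑ j ∈ range n, h (n - j) := sum_congr rfl fun j _ => congrArg h (by push_cast; ring)
      have e3 : ((0 : ℕ) : ℤ) - ((n + 1 : ℕ) : ℤ) = -(n : ℤ) - 1 := by push_cast; ring
      simp only [tel, zero_add, sum_range_one, Nat.cast_zero, sub_zero, add_zero, zero_sub,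
        neg_neg] at ih e1
      rw [tel, sum_range_succ' _ n, e2, e3]
      simp only [zero_add, sum_range_one, Nat.cast_zero, sub_zero, add_zero]
      rw [eq_sub_of_add_eq e1.symm, ← ih]
      abel
  | succ m ih =>
    have e1 := hF (((m + 1 : ℕ) : ℤ) - n)
    have e2 : ∑ k ∈ range (m + 1), h ((n : ℤ) - ((m + 1 : ℕ) : ℤ) + ((k + 1 : ℕ) : ℤ)) =
        ∑ k ∈ range (m + 1), h (n - m + k) :=
      sum_congr rfl fun j _ => congrArg h (by push_cast; ring)
    have e3 : ((m + 1 : ℕ) : ℤ) - n - 1 = m - n := by push_cast; ring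
    have e4 : (n : ℤ) - ((m + 1 : ℕ) : ℤ) + ((0 : ℕ) : ℤ) = -(((m + 1 : ℕ) : ℤ) - n) := by
      push_cast; ring
    rw [e1, e3, ← ih, tel, tel, sum_range_succ' _ (m + 1), e2, e4]
    abel

lemma col (h : ℤ → M) (m : ℕ) (c : ℤ) :
    ∑ k ∈ range (m + 1), ((if k ≠ 0 then h (c - (m - k) + 0) else 0) - h (c - (m - k) + 1)) =
      -h (c + 1) := by
  have e2 : ∑ k ∈ range m, (if k + 1 ≠ 0 then h (c - (m - ((k + 1 : ℕ) : ℤ)) + 0) else 0) =
      ∑ k ∈ range m, h (c - (m - k) + 1) :=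
    sum_congr rfl fun k _ => (if_pos k.succ_ne_zero).trans (congrArg h (by push_cast; ring))
  rw [sum_sub_distrib, sum_range_succ' _ m, sum_range_succ _ m, e2]
  simp

lemma dbl1 (h : ℤ → M) (m n : ℕ) :
    ∑ k ∈ range (m + 1), ∑ j ∈ range (n + 1),
      ((if j ≠ 0 → k ≠ 0 then h ((n : ℤ) - j - (m - k) + 0) else 0) -
        if j ≠ 0 then h ((n : ℤ) - j - (m - k) + 1) else 0) = tel h m n := by
  have e1 : ∀ j ∈ range n, ∑ k ∈ range (m + 1),
      ((if j + 1 ≠ 0 → k ≠ 0 then h ((n : ℤ) - ((j + 1 : ℕ) : ℤ) - (m - k) + 0) else 0) -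
        if j + 1 ≠ 0 then h ((n : ℤ) - ((j + 1 : ℕ) : ℤ) - (m - k) + 1) else 0) = -h (n - j) := by
    intro j _
    have := col h m ((n : ℤ) - ((j + 1 : ℕ) : ℤ))
    rw [show (n : ℤ) - ((j + 1 : ℕ) : ℤ) + 1 = n - j by push_cast; ring] at this
    rw [← this]
    exact sum_congr rfl fun k _ => by simp
  rw [sum_comm, sum_range_succ' _ n, sum_congr rfl e1, sum_neg_distrib, tel, neg_add_eq_sub]
  congr 1
  refine sum_congr rfl fun k _ => ?_
  simp only [ne_eq, not_true_eq_false, false_imp_iff, if_true, if_false, sub_zero, Nat.cast_zero]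
  exact congrArg h (by ring)

lemma dbl2 (h : ℤ → M) (m n : ℕ) (r : Prop) :
    ∑ k ∈ range (m + 1), ∑ j ∈ range (n + 1),
      ((if j ≠ 0 ∧ k = m then h ((n : ℤ) - j - (m - k) + 1) else 0) -
        if j = 0 ∧ (k ≠ 0 ∨ r) then h ((n : ℤ) - j - (m - k) + 0) else 0) =
      (if r then 0 else h (n - m)) - tel h m n := by
  have e1 : ∑ k ∈ range (m + 1), ∑ j ∈ range (n + 1),
      (if j ≠ 0 ∧ k = m then h ((n : ℤ) - j - (m - k) + 1) else 0) = ∑ j ∈ range n, h (n - j) := by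
    rw [sum_range_succ, sum_eq_zero fun k hk => sum_eq_zero fun j _ =>
      if_neg fun hh => (mem_range.1 hk).ne hh.2, zero_add, sum_range_succ' _ n,
      if_neg fun hh => hh.1 rfl, add_zero]
    exact sum_congr rfl fun j _ =>
      (if_pos ⟨j.succ_ne_zero, rfl⟩).trans (congrArg h (by push_cast; ring))
  have e2 : ∀ k : ℕ, ∑ j ∈ range (n + 1),
      (if j = 0 ∧ (k ≠ 0 ∨ r) then h ((n : ℤ) - j - (m - k) + 0) else 0) =
      if k ≠ 0 ∨ r then h (n - m + k) else 0 := fun k => by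
    rw [sum_range_succ', sum_eq_zero fun j _ => if_neg fun hh => j.succ_ne_zero hh.1, zero_add]
    exact if_congr (by simp) (congrArg h (by push_cast; ring)) rfl
  simp only [sum_sub_distrib, e1, e2, tel]
  rw [sum_range_succ' _ m, sum_range_succ' _ m,
    sum_congr rfl fun k _ => if_pos (Or.inl k.succ_ne_zero)]
  by_cases hr : r
  · simp [hr]
  · simp [hr]
    abel

/-- The moving part of the character of a line bundle. -/
noncomputable def lin (h : ℤ → M) (c : ℤ) : M := ∑ l ∈ Icc 1 c, h (-l) - ∑ l ∈ Ioo c 0, h (-l)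

lemma lin_zero (h : ℤ → M) : lin h 0 = 0 := by simp [lin]

lemma lin_rec {h : ℤ → M} (h0 : h 0 = 0) (c : ℤ) : lin h c = lin h (c - 1) + h (-c) := by
  unfold lin
  rcases lt_trichotomy c 0 with hc | rfl | hc
  · have e : Ioo (c - 1) 0 = insert c (Ioo c 0) := by
      ext l
      simp only [mem_Ioo, mem_insert]
      omega
    rw [e, sum_insert (by simp), Icc_eq_empty (by omega), Icc_eq_empty (by omega)]
    abel
  · have e : Ioo (0 - 1 : ℤ) 0 = ∅ := by
      ext l
      simp only [mem_Ioo, notMem_empty, iff_false]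
      omega
    rw [e, neg_zero, h0]
    simp
  · have e : Icc 1 c = insert c (Icc 1 (c - 1)) := by
      ext l
      simp only [mem_Icc, mem_insert]
      omega
    have e' : ∀ x : ℤ, -1 ≤ x → Ioo x 0 = ∅ := fun x hx => by
      ext l
      simp only [mem_Ioo, notMem_empty, iff_false]
      omega
    rw [e, sum_insert (by simp), e' c (by omega), e' (c - 1) (by omega)]
    abel

end Arith

variable {Q : Quiv} {w v D : Fin Q.n → ℕ}

section Bas

variable {u u' : Fin Q.n → ℕ}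

lemma bas_all (F : Fin Q.n → ℕ → M) :
    ∑ a : Bas Q u, F a.1 a.2 = ∑ i, ∑ a ∈ range (u i), F i a := by
  rw [Fintype.sum_sigma]
  exact sum_congr rfl fun i _ => Fin.sum_univ_eq_sum_range (F i) (u i)

lemma bas_at (j : Fin Q.n) (F : Fin Q.n → ℕ → M) :
    ∑ a : Bas Q u, (if a.1 = j then F a.1 a.2 else 0) = ∑ a ∈ range (u j), F j a := by
  rw [bas_all fun i a => if i = j then F i a else 0,
    sum_eq_single j (fun i _ h => by simp [h]) (by simp)]
  simp

lemma bas_two (j k : Fin Q.n) (F : Fin Q.n → ℕ → Fin Q.n → ℕ → M) :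
    ∑ a : Bas Q u, ∑ b : Bas Q u', (if a.1 = j ∧ b.1 = k then F a.1 a.2 b.1 b.2 else 0) =
      ∑ a ∈ range (u j), ∑ b ∈ range (u' k), F j a k b := by
  rw [← bas_at j fun i a => ∑ b ∈ range (u' k), F i a k b]
  refine sum_congr rfl fun a _ => ?_
  by_cases h : a.1 = j
  · simp only [h, true_and, if_true]
    exact bas_at k (F j a.2)
  · simp [h]

lemma bas_diag (F : Fin Q.n → ℕ → Fin Q.n → ℕ → M) :
    ∑ a : Bas Q u, ∑ b : Bas Q u', (if a.1 = b.1 then F a.1 a.2 b.1 b.2 else 0) =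
      ∑ i, ∑ a ∈ range (u i), ∑ b ∈ range (u' i), F i a i b := by
  rw [← bas_all fun i a => ∑ b ∈ range (u' i), F i a i b]
  refine sum_congr rfl fun a _ => ?_
  rw [← bas_at a.1 (F a.1 a.2)]
  exact sum_congr rfl fun b _ => if_congr eq_comm rfl rfl

end Bas

/-- The line bundle summand to which a basis vector belongs. -/
def pa (lab : Bas Q D → Bas Q v × ℕ) : Nb Q w v D → Bas Q v ⊕ Bas Q w
  | .inl τ => .inl (lab τ).1
  | .inr a => a

/-- The position of a basis vector in its summand. -/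
def pk (lab : Bas Q D → Bas Q v × ℕ) : Nb Q w v D → ℕ
  | .inl τ => (lab τ).2 + 1
  | .inr _ => 0

/-- Degrees of the summands. -/
def dd (d : Bas Q v → ℕ) : Bas Q v ⊕ Bas Q w → ℕ := Sum.elim d 0

/-- Weights of the summands. -/
noncomputable def XX (σ : Bas Q v ≃ Bas Q v) (a : Bas Q v ⊕ Bas Q w) : G :=
  basWt Q w v (a.map σ id)

variable {d : Bas Q v → ℕ} {lab : Bas Q D → Bas Q v × ℕ} {σ : Bas Q v ≃ Bas Q v}

lemma sum_pos (hl : IsLab d lab) (F : Bas Q v ⊕ Bas Q w → ℕ → M) :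
    ∑ p : Nb Q w v D, F (pa lab p) (pk lab p) = ∑ a, ∑ k ∈ range (dd d a + 1), F a k := by
  have e : ∑ τ, F (.inl (lab τ).1) ((lab τ).2 + 1) =
      ∑ a, ∑ k ∈ range (d a), F (.inl a) (k + 1) := by
    rw [sum_sigma']
    refine sum_bij (fun τ _ => ⟨(lab τ).1, (lab τ).2⟩) (fun τ _ => ?_) (fun τ _ τ' _ h => ?_)
      (fun x hx => ?_) fun τ _ => rfl
    · simpa using hl.lt τ
    · simp only [Sigma.mk.injEq, heq_eq_eq] at h
      exact hl.inj (Prod.ext h.1 h.2)
    · obtain ⟨τ, hτ⟩ := hl.surj x.1 x.2 (by simpa using hx)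
      exact ⟨τ, mem_univ _, by simp [hτ]⟩
  simp only [sum_range_succ', sum_add_distrib]
  rw [Fintype.sum_sum_type]
  congr 1
  rw [Fintype.sum_sum_type]
  simpa [dd, pa, pk] using e

lemma sum_pos2 (hl : IsLab d lab) (A : Bas Q v ⊕ Bas Q w → Bas Q v ⊕ Bas Q w → Prop)
    (F : Bas Q v ⊕ Bas Q w → ℕ → Bas Q v ⊕ Bas Q w → ℕ → M) :
    ∑ p : Nb Q w v D, ∑ q : Nb Q w v D,
      (if A (pa lab p) (pa lab q) then F (pa lab p) (pk lab p) (pa lab q) (pk lab q) else 0) =
    ∑ a, ∑ b, if A a b then ∑ k ∈ range (dd d a + 1), ∑ j ∈ range (dd d b + 1), F a k b j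
      else 0 := by
  rw [sum_pos hl fun a k => ∑ q : Nb Q w v D,
    if A a (pa lab q) then F a k (pa lab q) (pk lab q) else 0]
  refine sum_congr rfl fun a _ => ?_
  rw [sum_congr rfl fun k _ => sum_pos hl fun b j => if A a b then F a k b j else 0, sum_comm]
  refine sum_congr rfl fun b _ => ?_
  by_cases h : A a b <;> simp [h]

lemma arrow_congr (τ : Arr Q ⊕ Bool) {p q p' q' : Nb Q w v D} (h1 : vx p = vx p')
    (h2 : vx q = vx q') (h3 : blk p < 2 ↔ blk p' < 2) (h4 : blk q < 2 ↔ blk q' < 2)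
    (h5 : blk p = 2 ↔ blk p' = 2) (h6 : blk q = 2 ↔ blk q' = 2) :
    arrow τ p q ↔ arrow τ p' q' := by
  rcases τ with ⟨_ | e, s⟩ | s <;> simp only [arrow, h1, h2, h3, h4, h5, h6]

variable (D) in
/-- The arrow condition on summands. -/
def ar (τ : Arr Q ⊕ Bool) (a b : Bas Q v ⊕ Bas Q w) : Prop :=
  arrow τ (.inr a : Nb Q w v D) (.inr b)

lemma arrow_pa (hl : IsLab d lab) (τ : Arr Q ⊕ Bool) (p q : Nb Q w v D) :
    arrow τ p q ↔ ar D τ (pa lab p) (pa lab q) := by
  have h1 : ∀ p : Nb Q w v D, vx p = vx (.inr (pa lab p) : Nb Q w v D) := by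
    rintro (τ | a)
    · exact (hl.vert τ).symm
    · rfl
  have h2 : ∀ p : Nb Q w v D, blk p < 2 ↔ blk (.inr (pa lab p) : Nb Q w v D) < 2 := by
    rintro (τ | a) <;> simp [blk, pa]
  have h3 : ∀ p : Nb Q w v D, blk p = 2 ↔ blk (.inr (pa lab p) : Nb Q w v D) = 2 := by
    rintro (τ | a) <;> simp [blk, pa]
  exact arrow_congr τ (h1 p) (h1 q) (h2 p) (h2 q) (h3 p) (h3 q)

lemma ar_map (hσ : ∀ a, (σ a).1 = a.1) (τ : Arr Q ⊕ Bool) (a b : Bas Q v ⊕ Bas Q w) :
    ar D τ a b ↔ ar D τ (a.map σ id) (b.map σ id) := by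
  have h1 : ∀ a : Bas Q v ⊕ Bas Q w,
      vx (.inr a : Nb Q w v D) = vx (.inr (a.map σ id) : Nb Q w v D) := by
    rintro (a | a)
    · exact (hσ a).symm
    · rfl
  have h2 : ∀ a : Bas Q v ⊕ Bas Q w,
      blk (.inr a : Nb Q w v D) = blk (.inr (a.map σ id) : Nb Q w v D) := by
    rintro (a | a) <;> rfl
  exact arrow_congr τ (h1 a) (h1 b) (by rw [h2]) (by rw [h2]) (by rw [h2]) (by rw [h2])

lemma blk_zero (lab : Bas Q D → Bas Q v × ℕ) (p : Nb Q w v D) : blk p = 0 ↔ pk lab p ≠ 0 := by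
  rcases p with τ | a | a <;> simp [blk, pk]

lemma lv_eq (p : Nb Q w v D) : lv d lab p = (dd d (pa lab p) : ℤ) - pk lab p := by
  rcases p with τ | a | a <;> simp [lv, dd, pa, pk]

lemma xs_eq (p : Nb Q w v D) : xs σ d lab p = XX σ (pa lab p) + lv d lab p • qq := by
  rcases p with τ | a | a <;> rfl

lemma radF_iff (lab : Bas Q D → Bas Q v × ℕ) (p q : Nb Q w v D) : radF p q ↔
    pk lab q = 0 ∧ (pk lab p ≠ 0 ∨ radF (.inr (pa lab p) : Nb Q w v D) (.inr (pa lab q))) := by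
  rcases p with τ | a <;> rcases q with τ' | b
  · simp [radF, blk, pk]
  · rcases b with b | b <;> simp [radF, blk, pk]
  · simp [radF, blk, pk]
  · simp [pk, pa]

lemma top_iff (hl : IsLab d lab) (p : Nb Q w v D) : top lab p ↔ pk lab p = dd d (pa lab p) := by
  have h : top lab p ↔ ∀ τ, hp lab p ≠ some (lab τ) := by
    constructor
    · intro h τ e
      simpa [al0, e] using h (.inl τ)
    · rintro h (τ | a)
      · exact if_neg (h τ)
      · rfl
  have h2 : ∀ a k, k ≤ d a → ((∀ τ, some (a, k) ≠ some (lab τ)) ↔ k = d a) := fun a k hk => by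
    constructor
    · intro h
      by_contra hn
      obtain ⟨τ, hτ⟩ := hl.surj a k (by omega)
      exact h τ (by rw [hτ])
    · intro e τ h
      have := hl.lt τ
      rw [← Option.some.inj h] at this
      simp only at this
      omega
  rw [h]
  rcases p with τ | a | a
  · exact h2 _ _ (hl.lt τ)
  · exact h2 _ _ (Nat.zero_le _)
  · simp [hp, pk, dd, pa]

end Pool.Agent.MP_8be872_ag.H68
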