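import Pool.Agent.MP_8be872_ag.H68.CharA

/-! Virtual characters of the slice: the total signed sum. -/

namespace Pool.Agent.MP_8be872_ag.H68

open Finset H38 H56 H63
open scoped Classical

variable {M : Type} [AddCommGroup M] {Q : Quiv} {w v D : Fin Q.n → ℕ}

/-- The constant part of the weight of a kind. -/
noncomputable def cs : Arr Q ⊕ Bool → G
  | .inl ε => arrWt Q ε
  | .inr true => 0
  | .inr false => -hb

section Defs

variable (σ : Bas Q v ≃ Bas Q v) (d : Bas Q v → ℕ) (lab : Bas Q D → Bas Q v × ℕ) (h : G → ℤ → M)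

/-- The sum over the entries satisfying `A`. -/
noncomputable def ent (A : Nb Q w v D → Nb Q w v D → Prop) (τ : Arr Q ⊕ Bool) (s : ℤ) : M :=
  ∑ p, ∑ q, if A p q then
    h (XX σ (pa lab q) - XX σ (pa lab p) - cs τ) (lv d lab q - lv d lab p + s) else 0

variable (w D) in
/-- The sum over pairs of summands. -/
noncomputable def al (τ : Arr Q ⊕ Bool) : M :=
  ∑ a : Bas Q v ⊕ Bas Q w, ∑ b, if ar D τ a b then
    h (XX σ b - XX σ a - cs τ) ((dd d a : ℤ) - dd d b) else 0

variable (w D) in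
/-- The contribution of the flag. -/
noncomputable def flg : M :=
  ∑ a : Bas Q v ⊕ Bas Q w, ∑ b, if ar D (.inr true) a b then
    (if radF (.inr a : Nb Q w v D) (.inr b) then 0 else
      h (XX σ b - XX σ a - cs (Q := Q) (.inr true)) ((dd d b : ℤ) - dd d a)) else 0

end Defs

variable (w v) in
/-- The sum over the polarization. -/
noncomputable def mv (e : Fin Q.n → ℕ → ℤ) (P : G → ℤ → M) : M :=
  (∑ x, ∑ a ∈ range (v (Q.tl x)), ∑ b ∈ range (v (Q.hd x)),
      P (tE x - tau + xV (Q.hd x) b - xV (Q.tl x) a) (e (Q.hd x) b - e (Q.tl x) a)) +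
    (∑ i, ∑ k ∈ range (w i), ∑ a ∈ range (v i), P (xV i a - uF i k - tau) (e i a)) -
    ∑ i, ∑ a ∈ range (v i), ∑ b ∈ range (v i), P (xV i a - xV i b) (e i a - e i b)

variable {σ : Bas Q v ≃ Bas Q v} {d : Bas Q v → ℕ} {lab : Bas Q D → Bas Q v × ℕ} {h L : G → ℤ → M}

lemma ent_congr {A B : Nb Q w v D → Nb Q w v D → Prop} (H : ∀ p q, A p q ↔ B p q)
    (τ : Arr Q ⊕ Bool) (s : ℤ) : ent σ d lab h A τ s = ent σ d lab h B τ s :=
  sum_congr rfl fun p _ => sum_congr rfl fun q _ => if_congr (H p q) rfl rfl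

lemma ite_sub (A P P' : Prop) [Decidable A] [Decidable P] [Decidable P'] (B B' : Prop)
    {_ : Decidable B} {_ : Decidable B'} (x y : M) (h1 : B ↔ A ∧ P) (h2 : B' ↔ A ∧ P') :
    (if B then x else 0) - (if B' then y else 0) =
      if A then (if P then x else 0) - (if P' then y else 0) else 0 := by
  by_cases hA : A <;> simp [h1, h2, hA]

lemma pair1 (hl : IsLab d lab) (h0 : ∀ g, L g 0 = h g 0)
    (hL : ∀ g c, L g c = L g (c - 1) + h g (-c)) (τ : Arr Q ⊕ Bool) :
    ent σ d lab h (fun p q : Nb Q w v D => arrow τ p q ∧ (blk q = 0 → blk p = 0)) τ 0 -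
      ent σ d lab h (fun p q : Nb Q w v D => arrow τ p q ∧ blk q = 0) τ 1 = al w D σ d L τ := by
  have e := sum_pos2 (w := w) hl (ar D τ) fun a k b j =>
    (if j ≠ 0 → k ≠ 0 then h (XX σ b - XX σ a - cs τ) ((dd d b : ℤ) - j - (dd d a - k) + 0)
      else 0) -
    if j ≠ 0 then h (XX σ b - XX σ a - cs τ) ((dd d b : ℤ) - j - (dd d a - k) + 1) else 0
  simp only [dbl1, tel_eq (h0 _) (hL _)] at e
  rw [al, ← e, ent, ent, ← sum_sub_distrib]
  refine sum_congr rfl fun p _ => ?_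
  rw [← sum_sub_distrib]
  refine sum_congr rfl fun q _ => ?_
  rw [lv_eq, lv_eq]
  exact ite_sub _ _ _ _ _ _ _ (by rw [arrow_pa hl, blk_zero lab, blk_zero lab])
    (by rw [arrow_pa hl, blk_zero lab])

lemma pair2 (hl : IsLab d lab) (h0 : ∀ g, L g 0 = h g 0)
    (hL : ∀ g c, L g c = L g (c - 1) + h g (-c)) :
    ent σ d lab h (shS (w := w) lab ka) (.inr true) 1 -
      ent σ d lab h (shS (w := w) lab kc) (.inr true) 0 =
      flg w D σ d h - al w D σ d L (.inr true) := by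
  have e := sum_pos2 (w := w) hl (ar D (.inr true)) fun a k b j =>
    (if j ≠ 0 ∧ k = dd d a then h (XX σ b - XX σ a - cs (Q := Q) (.inr true))
      ((dd d b : ℤ) - j - (dd d a - k) + 1) else 0) -
    if j = 0 ∧ (k ≠ 0 ∨ radF (.inr a : Nb Q w v D) (.inr b)) then
      h (XX σ b - XX σ a - cs (Q := Q) (.inr true)) ((dd d b : ℤ) - j - (dd d a - k) + 0) else 0
  simp only [dbl2, tel_eq (h0 _) (hL _)] at e
  trans ∑ a : Bas Q v ⊕ Bas Q w, ∑ b, if ar D (.inr true) a b then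
    (if radF (.inr a : Nb Q w v D) (.inr b) then 0 else
      h (XX σ b - XX σ a - cs (Q := Q) (.inr true)) ((dd d b : ℤ) - dd d a)) -
      L (XX σ b - XX σ a - cs (Q := Q) (.inr true)) ((dd d a : ℤ) - dd d b) else 0
  · rw [← e, ent, ent, ← sum_sub_distrib]
    refine sum_congr rfl fun p _ => ?_
    rw [← sum_sub_distrib]
    refine sum_congr rfl fun q _ => ?_
    rw [lv_eq, lv_eq]
    refine ite_sub _ _ _ _ _ _ _ ?_ ?_
    · rw [← arrow_pa hl, ← blk_zero lab, ← top_iff hl]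
      simp [shS, shape, and_assoc]
    · rw [← arrow_pa hl, ← radF_iff lab]
      simp [shS, shape]
  · rw [flg, al, ← sum_sub_distrib]
    refine sum_congr rfl fun a _ => ?_
    rw [← sum_sub_distrib]
    refine sum_congr rfl fun b _ => ?_
    by_cases H : ar D (.inr true) a b <;> simp [H]

lemma al_edge (x : Fin Q.ne) (s : Bool) (F : Bas Q v ⊕ Bas Q w → Bas Q v ⊕ Bas Q w → M) :
    ∑ a, ∑ b, (if ar D (.inl (some x, s)) a b then F a b else 0) =
      ∑ a : Bas Q v, ∑ b : Bas Q v, if a.1 = (if s then Q.hd x else Q.tl x) ∧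
        b.1 = (if s then Q.tl x else Q.hd x) then F (.inl a) (.inl b) else 0 := by
  simp [Fintype.sum_sum_type, ar, arrow, blk, vx]

lemma al_in (F : Bas Q v ⊕ Bas Q w → Bas Q v ⊕ Bas Q w → M) :
    ∑ a, ∑ b, (if ar D (.inl (none, true)) a b then F a b else 0) =
      ∑ a : Bas Q v, ∑ b : Bas Q w, if a.1 = b.1 then F (.inl a) (.inr b) else 0 := by
  simp [Fintype.sum_sum_type, ar, arrow, blk, vx]

lemma al_out (F : Bas Q v ⊕ Bas Q w → Bas Q v ⊕ Bas Q w → M) :
    ∑ a, ∑ b, (if ar D (.inl (none, false)) a b then F a b else 0) =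
      ∑ a : Bas Q w, ∑ b : Bas Q v, if a.1 = b.1 then F (.inr a) (.inl b) else 0 := by
  simp [Fintype.sum_sum_type, ar, arrow, blk, vx]

lemma al_gauge (s : Bool) (F : Bas Q v ⊕ Bas Q w → Bas Q v ⊕ Bas Q w → M) :
    ∑ a, ∑ b, (if ar D (.inr s) a b then F a b else 0) =
      ∑ a : Bas Q v, ∑ b : Bas Q v, if a.1 = b.1 then F (.inl a) (.inl b) else 0 := by
  simp [Fintype.sum_sum_type, ar, arrow, blk, vx]

lemma al_sort {e : Fin Q.n → ℕ → ℕ} (h1 : ∀ a, (σ a).1 = a.1)
    (h2 : ∀ a, e (σ a).1 (σ a).2 = d a) (τ : Arr Q ⊕ Bool) :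
    al w D σ d L τ = ∑ a : Bas Q v ⊕ Bas Q w, ∑ b, if ar D τ a b then
      L (basWt Q w v b - basWt Q w v a - cs τ)
        ((dd (fun a => e a.1 a.2) a : ℤ) - dd (fun a => e a.1 a.2) b) else 0 := by
  have h3 : ∀ a : Bas Q v ⊕ Bas Q w, dd d a = dd (fun a => e a.1 a.2) (a.map σ id) := by
    rintro (a | a)
    · exact (h2 a).symm
    · rfl
  rw [al, ← Equiv.sum_comp (σ.sumCongr (Equiv.refl (Bas Q w)))
    fun a => ∑ b, if ar D τ a b then L (basWt Q w v b - basWt Q w v a - cs τ)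
      ((dd (fun a => e a.1 a.2) a : ℤ) - dd (fun a => e a.1 a.2) b) else 0]
  refine sum_congr rfl fun a _ => ?_
  rw [← Equiv.sum_comp (σ.sumCongr (Equiv.refl (Bas Q w)))
    fun b => if ar D τ (σ.sumCongr (Equiv.refl (Bas Q w)) a) b then _ else 0]
  refine sum_congr rfl fun b _ => if_congr (ar_map h1 τ a b) ?_ rfl
  rw [h3 a, h3 b]
  rfl

lemma al_mv {e : Fin Q.n → ℕ → ℕ} (h1 : ∀ a, (σ a).1 = a.1) (h2 : ∀ a, e (σ a).1 (σ a).2 = d a) :
    ∑ ε, al w D σ d L (.inl ε) - al w D σ d L (.inr false) - al w D σ d L (.inr true) =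
      mv w v (fun i a => e i a) fun g m => L (-g) m + L (-(-hb - g)) (-m) := by
  have e1 : ∀ x, al w D σ d L (.inl (some x, true)) =
      ∑ a ∈ range (v (Q.tl x)), ∑ b ∈ range (v (Q.hd x)),
        L (-(tE x - tau + xV (Q.hd x) b - xV (Q.tl x) a)) ((e (Q.hd x) b : ℤ) - e (Q.tl x) a) := by
    intro x
    rw [al_sort h1 h2, al_edge, sum_comm (s := range _)]
    refine Eq.trans ?_ (bas_two (Q.hd x) (Q.tl x) fun i a j b =>
      L (-(tE x - tau + xV i a - xV j b)) ((e i a : ℤ) - e j b))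
    refine sum_congr rfl fun a _ => sum_congr rfl fun b _ => if_congr Iff.rfl ?_ rfl
    congr 1
    simp only [basWt, cs, arrWt]
    abel
  have e2 : ∀ x, al w D σ d L (.inl (some x, false)) =
      ∑ a ∈ range (v (Q.tl x)), ∑ b ∈ range (v (Q.hd x)),
        L (-(-hb - (tE x - tau + xV (Q.hd x) b - xV (Q.tl x) a)))
          (-((e (Q.hd x) b : ℤ) - e (Q.tl x) a)) := by
    intro x
    rw [al_sort h1 h2, al_edge]
    refine Eq.trans ?_ (bas_two (Q.tl x) (Q.hd x) fun i a j b =>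
      L (-(-hb - (tE x - tau + xV j b - xV i a))) (-((e j b : ℤ) - e i a)))
    refine sum_congr rfl fun a _ => sum_congr rfl fun b _ => if_congr Iff.rfl ?_ rfl
    rw [neg_sub (e _ _ : ℤ)]
    congr 1
    simp only [basWt, cs, arrWt, hb]
    abel
  have e3 : al w D σ d L (.inl (none, true)) =
      ∑ i : Fin Q.n, ∑ k ∈ range (w i), ∑ a ∈ range (v i),
        L (-(xV i a - uF i k - tau)) (e i a : ℤ) := by
    rw [al_sort h1 h2, al_in, sum_comm]
    refine Eq.trans ?_ (bas_diag fun i k j a => L (-(xV j a - uF i k - tau)) (e j a : ℤ))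
    refine sum_congr rfl fun a _ => sum_congr rfl fun b _ => if_congr eq_comm ?_ rfl
    congr 1
    simp only [basWt, cs, arrWt]
    abel
  have e4 : al w D σ d L (.inl (none, false)) =
      ∑ i : Fin Q.n, ∑ k ∈ range (w i), ∑ a ∈ range (v i),
        L (-(-hb - (xV i a - uF i k - tau))) (-(e i a : ℤ)) := by
    rw [al_sort h1 h2, al_out]
    refine Eq.trans ?_ (bas_diag fun i k j a =>
      L (-(-hb - (xV j a - uF i k - tau))) (-(e j a : ℤ)))
    refine sum_congr rfl fun a _ => sum_congr rfl fun b _ => if_congr Iff.rfl ?_ rfl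
    congr 1
    · simp only [basWt, cs, arrWt, hb]
      abel
    · simp [dd]
  have e5 : al w D σ d L (.inr true) =
      ∑ i : Fin Q.n, ∑ a ∈ range (v i), ∑ b ∈ range (v i),
        L (-(xV i a - xV i b)) ((e i a : ℤ) - e i b) := by
    rw [al_sort h1 h2, al_gauge]
    refine Eq.trans ?_ (bas_diag fun i a j b => L (-(xV i a - xV j b)) ((e i a : ℤ) - e j b))
    refine sum_congr rfl fun a _ => sum_congr rfl fun b _ => if_congr Iff.rfl ?_ rfl
    congr 1
    simp only [basWt, cs]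
    abel
  have e6 : al w D σ d L (.inr false) =
      ∑ i : Fin Q.n, ∑ a ∈ range (v i), ∑ b ∈ range (v i),
        L (-(-hb - (xV i a - xV i b))) (-((e i a : ℤ) - e i b)) := by
    rw [al_sort h1 h2, al_gauge, sum_comm]
    refine Eq.trans ?_ (bas_diag fun i a j b =>
      L (-(-hb - (xV i a - xV j b))) (-((e i a : ℤ) - e j b)))
    refine sum_congr rfl fun a _ => sum_congr rfl fun b _ => if_congr eq_comm ?_ rfl
    rw [neg_sub (e _ _ : ℤ)]
    congr 1
    simp only [basWt, cs]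
    abel
  simp only [Fintype.sum_prod_type, Fintype.sum_option, Fintype.sum_bool, e1, e2, e3, e4, e5, e6,
    mv, sum_add_distrib]
  abel

/-- The shift of the level of a kind. -/
def sft : Kd Q → ℤ
  | .inl (.inl _) | .inr (.inr _) => 0
  | _ => 1

lemma tot_eq (hl : IsLab d lab) (h0 : ∀ g, L g 0 = h g 0)
    (hL : ∀ g c, L g c = L g (c - 1) + h g (-c)) (sh : Kd Q → Nb Q w v D → Nb Q w v D → Prop)
    (R : Nb Q w v D → Nb Q w v D → Prop) (hs : ∀ k p q, k ≠ ka → (sh k p q ↔ shape R k p q)) :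
    ∑ τ, ent σ d lab h (sh (.inl τ)) τ (sft (Q := Q) (.inl τ)) -
      ∑ τ, ent σ d lab h (sh (.inr τ)) τ (sft (Q := Q) (.inr τ)) =
    ∑ ε, al w D σ d L (.inl ε) - al w D σ d L (.inr false) +
      (ent σ d lab h (sh ka) (.inr true) 1 - ent σ d lab h (sh kc) (.inr true) 0) := by
  have e1 : ∀ ε, al w D σ d L (.inl ε) = ent σ d lab h (sh (kx ε)) (.inl ε) 0 -
      ent σ d lab h (sh (kt ε)) (.inl ε) 1 := fun ε => by
    rw [← pair1 hl h0 hL, ent_congr fun p q => hs (kx ε) p q (by simp),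
      ent_congr fun p q => hs (kt ε) p q (by simp)]
    rfl
  have e2 : al w D σ d L (.inr false) = ent σ d lab h (sh ke) (.inr false) 0 -
      ent σ d lab h (sh kz) (.inr false) 1 := by
    rw [← pair1 hl h0 hL, ent_congr fun p q => hs ke p q (by simp),
      ent_congr fun p q => hs kz p q (by simp)]
    rfl
  simp only [Fintype.sum_sum_type, Fintype.sum_bool, e1, e2, sft, sum_sub_distrib]
  abel

end Pool.Agent.MP_8be872_ag.H68
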